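import Pool.Agent.W254.LF.Stm4

set_option autoImplicit false

namespace Pool.Agent.W310.LF

open Finset

theorem t_SEL : Pool.Agent.W254.LF.S_SEL := by
  classical
  intro F _ m J _ R Q h
  have h1 : (R * Q).det = ∑ g : Fin m → J,
      (∏ j, Q (g j) j) * (Matrix.of fun i j : Fin m => R i (g j)).det := by
    have e1 : (R * Q).det = Matrix.detRowAlternating
        (fun j : Fin m => ∑ k : J, Q k j • (fun i : Fin m => R i k)) := by
      rw [← Matrix.det_transpose]
      change Matrix.detRowAlternating _ = _
      congr 1
      ext j i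
      simp only [Matrix.transpose_apply, Matrix.mul_apply, Finset.sum_apply, Pi.smul_apply,
        smul_eq_mul]
      exact sum_congr rfl fun k _ => mul_comm _ _
    rw [e1]
    change (Matrix.detRowAlternating (n := Fin m) (R := F)).toMultilinearMap
      (fun j : Fin m => ∑ k : J, Q k j • (fun i : Fin m => R i k)) = _
    rw [MultilinearMap.map_sum]
    refine sum_congr rfl fun g _ => ?_
    rw [MultilinearMap.map_smul_univ, smul_eq_mul]
    congr 1
    rw [← Matrix.det_transpose]
    rfl
  rw [h1] at h
  obtain ⟨g, -, hg⟩ := exists_ne_zero_of_sum_ne_zero h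
  have hdet := right_ne_zero_of_mul hg
  refine ⟨g, ?_, hdet⟩
  intro a b hab
  by_contra hne
  apply hdet
  refine Matrix.det_zero_of_column_eq hne ?_
  intro i
  simp [hab]

end Pool.Agent.W310.LF
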